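import Mathlib
import Pool.Agent.H58.MapGraph.Defs
import Pool.Agent.H58.MapGraph.Bound

set_option autoImplicit false

namespace Pool.Agent.Results.MP_33e66b_co.MapGraphCCD

open Pool.Agent.H58.MapGraph Finset

universe u v

/-- The clique cover number: the least number of cliques whose union is the vertex set. -/
noncomputable def cliqueCoverNumber {V : Type u} (G : SimpleGraph V) : ℕ :=
  sInf {k | ∃ C : Fin k → Set V, (∀ i, G.IsClique (C i)) ∧ ⋃ i, C i = Set.univ}

/-- The clique cover degeneracy: the least `k` such that every nonnull induced subgraph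
`H = G.induce S` has a vertex `v` for which the subgraph of `H` induced by the neighbourhood of `v`
has clique cover number at most `k`. -/
noncomputable def cliqueCoverDegeneracy {V : Type u} (G : SimpleGraph V) : ℕ :=
  sInf {k | ∀ S : Set V, S.Nonempty → ∃ v : S,
    cliqueCoverNumber ((G.induce S).induce ((G.induce S).neighborSet v)) ≤ k}

/-- `G` is a `g`-map graph. Here `M` is a cellular embedding of a graph in a connected closed
surface of Euler genus `g` (`|V| - |E| + |F| = 2 - g`), `kept` is a set of its edges, and the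
embedded graph `G₀` of the definition has all the vertices of `M` and the kept edges. The faces of
`G₀` are the elements of `M.Region kept`. (Every graph embedded in the surface, cellularly or not,
arises in this way, since one can make its embedding cellular by adding edges.) The vertices of `G`
are the nations, an arbitrary set of faces of `G₀`, and two nations are adjacent when they have a
common vertex. -/
def IsMapGraph (g : ℕ) {W : Type u} (G : SimpleGraph W) : Prop :=
  ∃ (X : Type) (_ : Finite X) (_ : Nonempty X) (M : FlagMap X) (kept : Set X),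
    M.eulerChar = 2 - (g : ℤ) ∧ M.IsEdgeSet kept ∧
    ∃ nation : W → M.Region kept, Function.Injective nation ∧
      ∀ u v : W, G.Adj u v ↔ u ≠ v ∧ ∃ x y : X,
        (Quotient.mk (M.regionSetoid kept) x : M.Region kept) = nation u ∧
        (Quotient.mk (M.regionSetoid kept) y : M.Region kept) = nation v ∧
        M.vertexSetoid x y

lemma cliqueCoverNumber_le {V : Type u} (G : SimpleGraph V) {ι : Type v} [Finite ι] {k : ℕ}
    (hk : Nat.card ι ≤ k) (C : ι → Set V) (hC : ∀ i, G.IsClique (C i))
    (hU : ⋃ i, C i = Set.univ) : cliqueCoverNumber G ≤ k := by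
  refine (Nat.sInf_le ?_).trans hk
  obtain ⟨e⟩ : Nonempty (Fin (Nat.card ι) ≃ ι) := ⟨(Finite.equivFin ι).symm⟩
  refine ⟨fun i => C (e i), fun i => hC _, ?_⟩
  rw [← hU]
  exact e.surjective.iUnion_comp C

/-- **MP_33e66b_co, Q1.** For every `g`, every `g`-map graph has clique cover degeneracy at most
`7 + ⌊√(8g)⌋`. -/
theorem result : ∀ (g : ℕ) {W : Type u} (G : SimpleGraph W), IsMapGraph g G →
    cliqueCoverDegeneracy G ≤ 7 + Nat.sqrt (8 * g) := by
  classical
  rintro g W G ⟨X, hX, hne, M, kept, hg, hK, nation, hinj, hadj⟩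
  have : Fintype X := Fintype.ofFinite X
  have : Fintype (M.Region kept) := Fintype.ofFinite _
  have hW : Finite W := Finite.of_injective nation hinj
  have hadj' : ∀ u v : W, G.Adj u v ↔ u ≠ v ∧ ∃ p, M.Inc kept (nation u) p ∧
      M.Inc kept (nation v) p := by
    intro u v
    rw [hadj]
    refine and_congr_right fun _ => ?_
    constructor
    · rintro ⟨x, y, hx, hy, hxy⟩
      exact ⟨Quotient.mk _ x, ⟨x, hx, rfl⟩, ⟨y, hy, (Quotient.sound hxy).symm⟩⟩
    · rintro ⟨p, ⟨x, hx, hxp⟩, ⟨y, hy, hyp⟩⟩
      exact ⟨x, y, hx, hy, Quotient.exact (hxp.trans hyp.symm)⟩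
  refine Nat.sInf_le ?_
  intro S hS
  set N : Finset (M.Region kept) := univ.filter fun w => ∃ v ∈ S, nation v = w with hN
  have hNne : N.Nonempty := by
    obtain ⟨v, hv⟩ := hS
    exact ⟨nation v, mem_filter.mpr ⟨mem_univ _, v, hv, rfl⟩⟩
  obtain ⟨P, hP, w, hw, hor⟩ := M.exists_points kept hK hg N hNne
  obtain ⟨v, hvS, rfl⟩ := (mem_filter.mp hw).2
  refine ⟨⟨v, hvS⟩, ?_⟩
  rcases hor with hsmall | hdeg
  · -- few nations: cover the neighbourhood by single vertices
    have hcard : Nat.card ((G.induce S).neighborSet ⟨v, hvS⟩) ≤ 7 + Nat.sqrt (8 * g) := by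
      let f : (G.induce S).neighborSet ⟨v, hvS⟩ → ↥(N.erase (nation v)) := fun u =>
        ⟨nation u.1.1, mem_erase.mpr ⟨fun h => by
          have h1 : u.1.1 = v := hinj h
          have h2 : G.Adj v u.1.1 := u.2
          rw [h1] at h2
          exact G.loopless.irrefl v h2, mem_filter.mpr ⟨mem_univ _, u.1.1, u.1.2, rfl⟩⟩⟩
      have hf : Function.Injective f := by
        intro a b hab
        have h1 : nation a.1.1 = nation b.1.1 := congrArg Subtype.val hab
        exact Subtype.ext (Subtype.ext (hinj h1))
      have h1 := Nat.card_le_card_of_injective f hf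
      rw [Nat.card_eq_fintype_card (α := ↥(N.erase (nation v))), Fintype.card_coe,
        card_erase_of_mem hw] at h1
      omega
    refine cliqueCoverNumber_le _ hcard (fun u => {u}) ?_ ?_
    · intro u
      exact SimpleGraph.IsClique.of_subsingleton Set.subsingleton_singleton
    · rw [Set.eq_univ_iff_forall]
      intro u
      exact Set.mem_iUnion.mpr ⟨u, rfl⟩
  · -- few points on the nation `v`
    refine cliqueCoverNumber_le _ (ι := ↥(P.filter fun p => M.Inc kept (nation v) p))
      (by rw [Nat.card_eq_fintype_card, Fintype.card_coe]; exact hdeg)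
      (fun p => {u | M.Inc kept (nation u.1.1) p.1}) ?_ ?_
    · intro p a ha b hb hab
      show G.Adj a.1.1 b.1.1
      rw [hadj']
      exact ⟨fun h => hab (Subtype.ext (Subtype.ext h)), p.1, ha, hb⟩
    · rw [Set.eq_univ_iff_forall]
      intro u
      have h2 : G.Adj v u.1.1 := u.2
      obtain ⟨h3, h4⟩ := (hadj' _ _).mp h2
      obtain ⟨p, hp, hp1, hp2⟩ := hP (nation v) hw (nation u.1.1)
        (mem_filter.mpr ⟨mem_univ _, u.1.1, u.1.2, rfl⟩) (fun h => h3 (hinj h)) h4
      rw [Set.mem_iUnion]
      exact ⟨⟨p, mem_filter.mpr ⟨hp, hp1⟩⟩, hp2⟩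

end Pool.Agent.Results.MP_33e66b_co.MapGraphCCD
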